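import Pool.Agent.Helper85.LN.Goals

/-! Packet PRES of project LN: finite presentations on the given generators. -/

namespace Pool.Agent.Helper89.LN

open Pool.Agent.Helper85.LN

/-- finite presentation is independent of the finite set of generators -/
theorem ker_fin {G Q : Type} [Group G] [Finite Q] {n : ℕ} (φ : FreeGroup (Fin n) →* G)
    (hφ : Function.Surjective φ) (hker : φ.ker.IsFinitelyNormallyGenerated)
    (ψ : FreeGroup Q →* G) (hψ : Function.Surjective ψ) :
    ψ.ker.IsFinitelyNormallyGenerated := by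
  obtain ⟨T, hT, hTk⟩ := hker
  choose a ha using fun i : Fin n => hψ (φ (FreeGroup.of i))
  choose b hb using fun q : Q => hφ (ψ (FreeGroup.of q))
  obtain ⟨α, hα⟩ : ∃ α : FreeGroup (Fin n) →* FreeGroup Q, ∀ i, α (FreeGroup.of i) = a i :=
    ⟨FreeGroup.lift a, fun i => FreeGroup.lift_apply_of⟩
  obtain ⟨β, hβ⟩ : ∃ β : FreeGroup Q →* FreeGroup (Fin n), ∀ q, β (FreeGroup.of q) = b q :=
    ⟨FreeGroup.lift b, fun i => FreeGroup.lift_apply_of⟩
  have h1 : ψ.comp α = φ := FreeGroup.ext_hom _ _ fun i => by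
    rw [MonoidHom.comp_apply, hα, ha]
  have h2 : φ.comp β = ψ := FreeGroup.ext_hom _ _ fun q => by
    rw [MonoidHom.comp_apply, hβ, hb]
  have h1' : ∀ x, ψ (α x) = φ x := fun x => by rw [← h1]; rfl
  have h2' : ∀ x, φ (β x) = ψ x := fun x => by rw [← h2]; rfl
  refine ⟨α '' T ∪ Set.range fun q => (α (β (FreeGroup.of q)))⁻¹ * FreeGroup.of q,
    (hT.image _).union (Set.finite_range _), ?_⟩
  obtain ⟨N, hN⟩ : ∃ N, N = Subgroup.normalClosure
    (α '' T ∪ Set.range fun q => (α (β (FreeGroup.of q)))⁻¹ * FreeGroup.of q) := ⟨_, rfl⟩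
  have hNn : N.Normal := by
    rw [hN]
    infer_instance
  rw [← hN]
  apply le_antisymm
  · rw [hN]
    apply Subgroup.normalClosure_le_normal
    rintro x (⟨t, ht, rfl⟩ | ⟨q, rfl⟩)
    · change ψ (α t) = 1
      rw [h1']
      have : t ∈ φ.ker := by
        rw [← hTk]
        exact Subgroup.subset_normalClosure ht
      exact this
    · change ψ ((α (β (FreeGroup.of q)))⁻¹ * FreeGroup.of q) = 1
      rw [map_mul, map_inv, h1', h2', inv_mul_cancel]
  · intro u hu
    have h3 : (QuotientGroup.mk' N).comp (α.comp β) = QuotientGroup.mk' N := by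
      apply FreeGroup.ext_hom
      intro q
      change QuotientGroup.mk' N (α (β (FreeGroup.of q))) = QuotientGroup.mk' N (FreeGroup.of q)
      apply QuotientGroup.eq.2
      rw [hN]
      exact Subgroup.subset_normalClosure (Or.inr ⟨q, rfl⟩)
    have h4 : φ.ker ≤ N.comap α := by
      rw [← hTk]
      have : (N.comap α).Normal := inferInstance
      apply Subgroup.normalClosure_le_normal
      intro t ht
      change α t ∈ N
      rw [hN]
      exact Subgroup.subset_normalClosure (Or.inl ⟨t, ht, rfl⟩)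
    have h5 : α (β u) ∈ N := by
      apply h4
      change φ (β u) = 1
      rw [h2']
      exact hu
    have h6 : QuotientGroup.mk' N u = 1 := by
      rw [← h3]
      change QuotientGroup.mk' N (α (β u)) = 1
      exact (QuotientGroup.eq_one_iff _).2 h5
    exact (QuotientGroup.eq_one_iff _).1 h6

theorem eqv_of_mk {Q : Type} {R : List (List (S Q))} {u v : List (S Q)}
    (h : FreeGroup.mk u = FreeGroup.mk v) : Eqv R u v := by
  have h1 : Relation.EqvGen FreeGroup.Red.Step u v := Quot.eqvGen_exact h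
  clear h
  induction h1 with
  | rel x y h =>
    cases h
    rename_i L₁ L₂ x b
    exact (Eqv.step ⟨L₁, [(x, b), (x, !b)], L₂, Or.inr ⟨x, b, rfl⟩, rfl, rfl⟩).symm
  | refl x => exact Eqv.refl _
  | symm x y h0 ih => exact ih.symm
  | trans x y z h0 h0' ih1 ih2 => exact ih1.trans ih2

theorem mk_of_eqv {Q : Type} {R : List (List (S Q))} (N : Subgroup (FreeGroup Q)) [N.Normal]
    (hR : ∀ r ∈ R, FreeGroup.mk r ∈ N) {u v : List (S Q)} (h : Eqv R u v) :
    QuotientGroup.mk' N (FreeGroup.mk u) = QuotientGroup.mk' N (FreeGroup.mk v) := by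
  induction h with
  | rel x y h =>
    obtain ⟨p, r, s, hr, rfl, rfl⟩ := h
    have h1 : QuotientGroup.mk' N (FreeGroup.mk r) = 1 := by
      rcases hr with hr | ⟨q, b, rfl⟩
      · exact (QuotientGroup.eq_one_iff _).2 (hR r hr)
      · have h2 : (FreeGroup.mk [(q, b), (q, !b)] : FreeGroup Q) = 1 :=
          Quot.sound (FreeGroup.Red.Step.not (L₁ := []) (L₂ := []))
        rw [h2, map_one]
    rw [← FreeGroup.mul_mk, ← FreeGroup.mul_mk, ← FreeGroup.mul_mk, map_mul, map_mul, map_mul, h1,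
      one_mul]
  | refl x => rfl
  | symm x y _ ih => exact ih.symm
  | trans x y z _ _ ih1 ih2 => exact ih1.trans ih2

/-- the words equivalent to the empty one -/
def eqvSub {Q : Type} (R : List (List (S Q))) : Subgroup (FreeGroup Q) where
  carrier := {g | ∃ w, FreeGroup.mk w = g ∧ Eqv R w []}
  one_mem' := ⟨[], rfl, Eqv.refl _⟩
  mul_mem' := by
    rintro _ _ ⟨u, rfl, hu⟩ ⟨v, rfl, hv⟩
    exact ⟨u ++ v, FreeGroup.mul_mk.symm, hu.append hv⟩
  inv_mem' := by
    rintro _ ⟨u, rfl, hu⟩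
    exact ⟨iw u, FreeGroup.inv_mk.symm, hu.iw⟩

theorem eqvSub_normal {Q : Type} (R : List (List (S Q))) : (eqvSub R).Normal := by
  constructor
  rintro _ ⟨u, rfl, hu⟩ g
  obtain ⟨v, rfl⟩ : ∃ v, FreeGroup.mk v = g := Quot.exists_rep g
  refine ⟨v ++ u ++ iw v, ?_, ?_⟩
  · rw [← FreeGroup.mul_mk, ← FreeGroup.mul_mk, FreeGroup.inv_mk]
    rfl
  · have h1 : Eqv R (v ++ u ++ iw v) (v ++ [] ++ iw v) := (hu.append_left v).append_right _
    rw [List.append_nil] at h1
    exact h1.trans (Eqv.mul_iw v)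

theorem pres : S_PRES := by
  intro m d A hfp
  obtain ⟨n, φ, hφ, hker⟩ := hfp.out
  obtain ⟨ψ, hψ⟩ : ∃ ψ : FreeGroup (Fin m) →* A.G, ∀ w, (ψ (FreeGroup.mk w) : Equiv.Perm _) =
      A.val w := by
    refine ⟨FreeGroup.lift fun q => ⟨A.perm q, Subgroup.subset_closure ⟨q, rfl⟩⟩, fun w => ?_⟩
    induction w with
    | nil => rfl
    | cons s w ih =>
      have h1 : (FreeGroup.mk (s :: w) : FreeGroup (Fin m)) = FreeGroup.mk [s] * FreeGroup.mk w :=
        (FreeGroup.mul_mk (L₁ := [s]) (L₂ := w)).symm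
      rw [h1, map_mul, Subgroup.coe_mul, ih, A.val_cons]
      congr 1
      obtain ⟨q, b⟩ := s
      rw [FreeGroup.lift_mk]
      cases b <;> simp [Auto.ps]
  have hsurj : Function.Surjective ψ := by
    rintro ⟨g, hg⟩
    obtain ⟨w, rfl⟩ := (A.mem_G_iff g).1 hg
    exact ⟨FreeGroup.mk w, Subtype.ext (hψ w)⟩
  obtain ⟨T, hT, hTk⟩ := ker_fin φ hφ hker ψ hsurj
  refine ⟨hT.toFinset.toList.map FreeGroup.toWord, fun w => ?_⟩
  have hR : ∀ r ∈ hT.toFinset.toList.map FreeGroup.toWord,
      FreeGroup.mk r ∈ Subgroup.normalClosure T := by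
    intro r hr
    obtain ⟨t, ht, rfl⟩ := List.mem_map.1 hr
    rw [FreeGroup.mk_toWord]
    exact Subgroup.subset_normalClosure (by simpa using ht)
  have h1 : A.val w = 1 ↔ FreeGroup.mk w ∈ Subgroup.normalClosure T := by
    rw [hTk, MonoidHom.mem_ker, ← hψ w]
    constructor
    · intro h
      exact Subtype.ext h
    · intro h
      rw [h]
      rfl
  rw [h1]
  constructor
  · intro h
    have h2 : Subgroup.normalClosure T ≤ eqvSub (hT.toFinset.toList.map FreeGroup.toWord) := by
      have := eqvSub_normal (hT.toFinset.toList.map FreeGroup.toWord)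
      apply Subgroup.normalClosure_le_normal
      intro t ht
      refine ⟨t.toWord, FreeGroup.mk_toWord, Eqv.rel ?_⟩
      exact List.mem_map.2 ⟨t, by simpa using ht, rfl⟩
    obtain ⟨w', hw', hw''⟩ := h2 h
    exact (eqv_of_mk hw'.symm).trans hw''
  · intro h
    have h2 := mk_of_eqv (Subgroup.normalClosure T) hR h
    have h3 : QuotientGroup.mk' (Subgroup.normalClosure T) (FreeGroup.mk w) = 1 := h2.trans rfl
    exact (QuotientGroup.eq_one_iff _).1 h3

end Pool.Agent.Helper89.LN
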