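import Mathlib
import Pool.Agent.Helper61.LN.Goals

set_option autoImplicit false

namespace Pool.Agent.Helper89.LN.ALG1

open Pool.Agent.Helper61.LN

universe u

theorem t : S_ALG1.{u} := by
  intro P _ τ e z hall hinf
  set y : ℕ → P := fun n => τ^[n] e with hy
  have hy0 : y 0 = e := rfl
  have hit : ∀ j n : ℕ, τ^[j] (y n) = y (n + j) := by
    intro j n
    simp only [hy]
    rw [← Function.iterate_add_apply, add_comm]
  have hinj0 : ∀ i j : ℕ, i < j → y i ≠ y j := by
    intro i j hij h
    apply hinf
    have key : ∀ n : ℕ, y n ∈ y '' (Set.Iio j) := by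
      intro n
      induction n using Nat.strong_induction_on with
      | _ n ih =>
        by_cases hn : n < j
        · exact ⟨n, hn, rfl⟩
        · have h1 : y n = y (n - j + i) := by
            have h2 := hit (n - j) j
            have h3 := hit (n - j) i
            rw [← h, h3] at h2
            have e1 : j + (n - j) = n := by omega
            have e2 : i + (n - j) = n - j + i := by omega
            rw [e1, e2] at h2
            exact h2.symm
          rw [h1]
          exact ih _ (by omega)
    refine ((Set.finite_Iio j).image y).subset ?_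
    rintro _ ⟨n, rfl⟩
    exact key n
  have hinj : ∀ i j : ℕ, y i = y j → i = j := by
    intro i j h
    rcases lt_trichotomy i j with h1 | h1 | h1
    · exact absurd h (hinj0 i j h1)
    · exact h1
    · exact absurd h.symm (hinj0 j i h1)
  have hne : ∀ n : ℕ, y n ≠ 0 := by
    intro n h
    have h1 := hit 1 n
    rw [h] at h1
    simp only [Function.iterate_one, map_zero] at h1
    have := hinj n (n + 1) (h.trans h1)
    omega
  have hz : z = 0 := by
    rcases hall 0 with ⟨n, hn⟩ | h
    · exact absurd hn.symm (hne n)
    · exact h.symm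
  have hex : ∀ p : P, p ≠ 0 → ∃ n, p = y n := by
    intro p hp
    rcases hall p with ⟨n, hn⟩ | h
    · exact ⟨n, hn⟩
    · exact absurd (h.trans hz) hp
  have he2 : -e = e := by
    obtain ⟨k, hk⟩ := hex (-e) (neg_ne_zero.2 (hne 0))
    have h1 : e = y (k + k) := by
      rw [← hit k k, ← hk, iterate_map_neg]
      have : τ^[k] e = y k := rfl
      rw [this, ← hk, neg_neg]
    have h2 := hinj 0 (k + k) h1
    have h3 : k = 0 := by omega
    rw [h3] at hk
    exact hk
  have hdbl : ∀ n : ℕ, y n + y n = 0 := by
    intro n
    have h1 : τ^[n] (-e) = τ^[n] e := by rw [he2]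
    rw [iterate_map_neg] at h1
    have h2 : -(y n) = y n := h1
    calc y n + y n = -(y n) + y n := by rw [h2]
      _ = 0 := neg_add_cancel _
  have h01 : e + y 1 ≠ 0 := by
    intro h
    have h1 : y 1 = -e := (neg_eq_of_add_eq_zero_right h).symm
    rw [he2] at h1
    have := hinj 1 0 h1
    omega
  obtain ⟨m, hm⟩ := hex _ h01
  have hm0 : m ≠ 0 := by
    rintro rfl
    have : y 1 = 0 := by
      have h2 : e + y 1 = e + 0 := by rw [hm, add_zero, hy0]
      exact add_left_cancel h2
    exact hne 1 this
  have hm1 : m ≠ 1 := by
    rintro rfl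
    have : e = 0 := by
      have h2 : e + y 1 = 0 + y 1 := by rw [hm, zero_add]
      exact add_right_cancel h2
    exact hne 0 this
  have hrec : ∀ j : ℕ, y j + y (j + 1) = y (j + m) := by
    intro j
    have h1 : τ^[j] (e + y 1) = τ^[j] (y m) := by rw [hm]
    rw [iterate_map_add, hit, hit] at h1
    have e1 : 1 + j = j + 1 := by omega
    have e2 : m + j = j + m := by omega
    rw [e1, e2] at h1
    exact h1
  set S : Set P := (fun s : Finset ℕ => ∑ i ∈ s, y i) '' (↑(Finset.range m).powerset : Set (Finset ℕ)) with hS
  have hSf : S.Finite := (Finset.finite_toSet _).image _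
  have hadd1 : ∀ p ∈ S, ∀ i < m, p + y i ∈ S := by
    classical
    rintro p ⟨s, hs, rfl⟩ i hi
    simp only [Finset.coe_powerset, Set.mem_preimage, Set.mem_powerset_iff, Finset.coe_subset] at hs
    by_cases his : i ∈ s
    · refine ⟨s.erase i, ?_, ?_⟩
      · simp only [Finset.coe_powerset, Set.mem_preimage, Set.mem_powerset_iff, Finset.coe_subset]
        exact (Finset.erase_subset _ _).trans hs
      · show ∑ i ∈ s.erase i, y i = (∑ i ∈ s, y i) + y i
        rw [← Finset.sum_erase_add s y his, add_assoc, hdbl, add_zero]
    · refine ⟨insert i s, ?_, ?_⟩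
      · simp only [Finset.coe_powerset, Set.mem_preimage, Set.mem_powerset_iff, Finset.coe_subset]
        exact Finset.insert_subset (Finset.mem_range.2 hi) hs
      · show ∑ i ∈ insert i s, y i = (∑ i ∈ s, y i) + y i
        rw [Finset.sum_insert his, add_comm]
  have hadd : ∀ t : Finset ℕ, t ⊆ Finset.range m → ∀ p ∈ S, p + ∑ i ∈ t, y i ∈ S := by
    classical
    intro t
    induction t using Finset.induction_on with
    | empty => intro _ p hp; simpa using hp
    | insert a s ha ih =>
      intro hs p hp
      rw [Finset.sum_insert ha, ← add_assoc]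
      refine ih ((Finset.subset_insert _ _).trans hs) _ (hadd1 p hp a ?_)
      exact Finset.mem_range.1 (hs (Finset.mem_insert_self _ _))
  have hall' : ∀ n : ℕ, y n ∈ S := by
    intro n
    induction n using Nat.strong_induction_on with
    | _ n ih =>
      by_cases hn : n < m
      · refine ⟨{n}, ?_, by simp⟩
        simp only [Finset.coe_powerset, Set.mem_preimage, Set.mem_powerset_iff, Finset.coe_subset,
          Finset.singleton_subset_iff, Finset.mem_range]
        exact hn
      · have h1 := ih (n - m) (by omega)
        have h2 := ih (n - m + 1) (by omega)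
        have h3 := hrec (n - m)
        have e1 : n - m + m = n := by omega
        rw [e1] at h3
        rw [← h3]
        obtain ⟨s, hs, hs2⟩ := h2
        simp only [Finset.coe_powerset, Set.mem_preimage, Set.mem_powerset_iff, Finset.coe_subset] at hs
        rw [← hs2]
        exact hadd s hs _ h1
  apply hinf
  refine hSf.subset ?_
  rintro _ ⟨n, rfl⟩
  exact hall' n

end Pool.Agent.Helper89.LN.ALG1
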