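import Pool.Agent.Helper89.LN.G0

set_option autoImplicit false

/-! Project LN (MP_2b9d24_gt), packet CU1: the parabolic element of a cusp. -/

open Topology Filter Set Metric UpperHalfPlane
open scoped MatrixGroups

namespace Pool.Agent.Helper89.LN

open Pool.Agent.Helper64 Pool.Agent.Helper64.LN

lemma T1_coe (z : ℍ) : ((PQ.T1 • z : ℍ) : ℂ) = z + 1 := by
  rw [UpperHalfPlane.specialLinearGroup_apply]
  simp [PQ.T1]

lemma T1_im (z : ℍ) : (PQ.T1 • z : ℍ).im = z.im := by
  have h := congrArg Complex.im (T1_coe z)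
  simpa using h

/-- A Moebius transformation fixing `2 i` and `3 i` is the identity. -/
lemma mh_one_of_fix (k : SL(2, ℝ)) (h1 : k • (⟨2 * Complex.I, by simp⟩ : ℍ) = ⟨2 * Complex.I, by simp⟩)
    (h2 : k • (⟨3 * Complex.I, by simp⟩ : ℍ) = ⟨3 * Complex.I, by simp⟩) : mh k = 1 := by
  have hdet := k.det_coe
  rw [Matrix.det_fin_two] at hdet
  obtain ⟨a1, a2⟩ := smul_eqs k ⟨2 * Complex.I, by simp⟩
  obtain ⟨b1, b2⟩ := smul_eqs k ⟨3 * Complex.I, by simp⟩
  rw [h1] at a1 a2
  rw [h2] at b1 b2
  have r2 : (⟨2 * Complex.I, by simp⟩ : ℍ).re = 0 := by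
    change (2 * Complex.I).re = 0
    simp
  have i2 : (⟨2 * Complex.I, by simp⟩ : ℍ).im = 2 := by
    change (2 * Complex.I).im = 2
    simp
  have r3 : (⟨3 * Complex.I, by simp⟩ : ℍ).re = 0 := by
    change (3 * Complex.I).re = 0
    simp
  have i3 : (⟨3 * Complex.I, by simp⟩ : ℍ).im = 3 := by
    change (3 * Complex.I).im = 3
    simp
  rw [r2, i2] at a1 a2
  rw [r3, i3] at b1 b2
  have hc : k 1 0 = 0 := by linarith
  have hb : k 0 1 = 0 := by rw [hc] at a1; linarith
  have hd : k 1 1 = k 0 0 := by linarith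
  have hsq : k 0 0 * k 0 0 = 1 := by
    rw [hd, hb] at hdet
    linarith
  have hk : k = 1 ∨ k = -1 := by
    rcases mul_self_eq_one_iff.1 hsq with h | h
    · left
      ext i j
      fin_cases i <;> fin_cases j <;> simp [h, hb, hc, hd]
    · right
      ext i j
      fin_cases i <;> fin_cases j <;> simp [h, hb, hc, hd]
  rcases hk with rfl | rfl
  · exact map_one mh
  · rw [mh_neg, map_one]

/-- The upward shift. -/
noncomputable def sh (z : ℍ) : ℍ := ⟨z + Complex.I, by
  have := z.im_pos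
  simp
  linarith⟩

lemma sh_cont : Continuous sh := by
  unfold sh
  exact (UpperHalfPlane.continuous_coe.add continuous_const).upperHalfPlaneMk _

lemma sh_im (z : ℍ) : 1 < (sh z).im := by
  have h1 : (sh z).im = z.im + 1 := by
    change ((z : ℂ) + Complex.I).im = _
    simp
  have := z.im_pos
  linarith

/-- **Packet CU1.** -/
theorem goalCU1 (hCR : GoalCR3) : GoalCU1 := by
  intro X _ _ p B u A hu hp hc
  have hT : ∀ z : ℍ, 1 < z.im → u (A • PQ.T1 • z) = u (A • z) := by
    intro z hz
    refine ((hc.par z _ hz ?_).2 ⟨1, ?_⟩).symm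
    · rw [T1_im]; exact hz
    · rw [T1_coe]; simp
  obtain ⟨g, hg1, hg2⟩ := hu.deck (A • sh UpperHalfPlane.I) (A • PQ.T1 • sh UpperHalfPlane.I)
    (hT _ (sh_im _)).symm
  have heq := (uni_isCov hu).eqOn_of_comp_eqOn (g₁ := fun v : ℍ => g • A • sh v)
    (g₂ := fun v : ℍ => A • PQ.T1 • sh v) (isPreconnected_univ (α := ℍ))
    (((continuous_const_smul g).comp ((continuous_const_smul A).comp sh_cont)).continuousOn)
    (((continuous_const_smul A).comp ((continuous_const_smul PQ.T1).comp sh_cont)).continuousOn)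
    (by
      intro x _
      apply Subtype.ext
      change u (g • A • sh x) = u (A • PQ.T1 • sh x)
      rw [hg2, hT _ (sh_im x)]) (mem_univ UpperHalfPlane.I) hg1
  have hfix : ∀ w : ℍ, ((A * PQ.T1)⁻¹ * (g * A)) • sh w = sh w := by
    intro w
    have h := heq (mem_univ w)
    change g • A • sh w = A • PQ.T1 • sh w at h
    rw [mul_smul, mul_smul, h, ← mul_smul A, inv_smul_smul]
  have hk : mh ((A * PQ.T1)⁻¹ * (g * A)) = 1 := by
    apply mh_one_of_fix
    · have h := hfix ⟨Complex.I, by simp⟩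
      have e : sh ⟨Complex.I, by simp⟩ = (⟨2 * Complex.I, by simp⟩ : ℍ) := by
        apply UpperHalfPlane.ext
        change Complex.I + Complex.I = 2 * Complex.I
        ring
      rwa [e] at h
    · have h := hfix ⟨2 * Complex.I, by simp⟩
      have e : sh ⟨2 * Complex.I, by simp⟩ = (⟨3 * Complex.I, by simp⟩ : ℍ) := by
        apply UpperHalfPlane.ext
        change 2 * Complex.I + Complex.I = 3 * Complex.I
        ring
      rwa [e] at h
  have hgq : mh (A * PQ.T1 * A⁻¹) = mh g := by
    rw [map_mul, map_inv, inv_mul_eq_one] at hk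
    rw [map_mul, hk, ← map_mul, mul_inv_cancel_right]
  have hq : A * PQ.T1 * A⁻¹ ∈ PQ.deckG u := by
    intro z
    rw [← mh_apply, hgq, mh_apply]
    exact hg2 z
  have htr : (A * PQ.T1 * A⁻¹ : SL(2, ℝ)) 0 0 + (A * PQ.T1 * A⁻¹ : SL(2, ℝ)) 1 1 = 2 := by
    have hdet := A.det_coe
    rw [Matrix.det_fin_two] at hdet
    simp only [PQ.T1, Matrix.SpecialLinearGroup.coe_mul, Matrix.SpecialLinearGroup.coe_inv,
      Matrix.adjugate_fin_two, Matrix.mul_apply, Fin.sum_univ_two, Matrix.of_apply,
      Matrix.cons_val', Matrix.cons_val_zero, Matrix.cons_val_one, Matrix.cons_val_fin_one]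
    linear_combination 2 * hdet
  refine ⟨mem_deck.2 ⟨g, hg2, hgq⟩, ?_, ?_⟩
  · intro h1
    unfold piA at h1
    rw [map_mul, map_mul, map_inv, mul_inv_eq_one, mul_eq_left] at h1
    have h2 : (PQ.T1 • UpperHalfPlane.I : ℍ) = UpperHalfPlane.I := by
      have := congrArg (fun F : ℍ ≃ₜ ℍ => F UpperHalfPlane.I) h1
      exact this
    have h3 := T1_coe UpperHalfPlane.I
    rw [h2] at h3
    have h4 : (1 : ℂ) = 0 := by
      have := h3
      rwa [left_eq_add] at this
    exact one_ne_zero h4
  · intro e he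
    obtain ⟨e', he', rfl⟩ := mem_deck.1 he
    have hG := goalG0 X B u hu
    unfold piA
    constructor
    · intro h
      have := (hCR _ hG _ hq e' he' h).1
      rw [htr] at this
      norm_num at this
    · intro h
      have := (hCR _ hG e' he' _ hq h).2.1
      rw [htr] at this
      norm_num at this

end Pool.Agent.Helper89.LN
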