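import Pool.Agent.Helper64.LN.GoalsB

set_option autoImplicit false

/-! Project LN (MP_2b9d24_gt), packet G0: deck groups are discrete. -/

open Topology Filter Set Metric UpperHalfPlane
open scoped MatrixGroups

namespace Pool.Agent.Helper89.LN

open Pool.Agent.Helper64 Pool.Agent.Helper64.LN

section
variable {X : Type*} [TopologicalSpace X] {B : Set X} {u : ℍ → X}

lemma uni_mem (hu : Uni B u) (z : ℍ) : u z ∈ (Bᶜ : Set X) := by
  rw [← hu.range]
  exact ⟨z, rfl⟩

lemma uni_isCov (hu : Uni B u) : IsCoveringMap (Set.codRestrict u Bᶜ (uni_mem hu)) := by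
  have e : u ⁻¹' Bᶜ = univ := by
    ext z
    simp only [mem_preimage, mem_univ, iff_true]
    exact uni_mem hu z
  let g : ℍ ≃ₜ (u ⁻¹' Bᶜ : Set ℍ) :=
    (Homeomorph.Set.univ ℍ).symm.trans (Homeomorph.setCongr e.symm)
  have h := (hu.cov.isCoveringMap_restrictPreimage).comp_homeomorph g
  convert! h using 1

lemma uni_cont (hu : Uni B u) : Continuous u := by
  have h := (uni_isCov hu).continuous
  exact continuous_subtype_val.comp h

lemma uni_free (hu : Uni B u) (g : SL(2, ℝ)) (hg : ∀ v : ℍ, u (g • v) = u v) (z : ℍ)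
    (hz : g • z = z) : mh g = 1 := by
  have h := (uni_isCov hu).eqOn_of_comp_eqOn (g₁ := fun v : ℍ => g • v) (g₂ := fun v : ℍ => v)
    (isPreconnected_univ (α := ℍ)) (continuous_const_smul g).continuousOn continuousOn_id
    (by
      intro x _
      apply Subtype.ext
      exact hg x) (mem_univ z) hz
  ext1 v
  exact h (mem_univ v)

end

/-- **Packet G0.** -/
theorem goalG0 : GoalG0 := by
  intro X _ _ B u hu
  refine ⟨?_, ?_⟩
  · intro g hg z hz
    exact uni_free hu g hg z hz
  · intro L hL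
    by_contra hinf
    have hinf' : {g : SL(2, ℝ) | g ∈ PQ.deckG u ∧ ∃ z ∈ L, g • z ∈ L}.Infinite := hinf
    let e := hinf'.natEmbedding
    have hg : ∀ n, ((e n : SL(2, ℝ)) ∈ PQ.deckG u) ∧ ∃ z ∈ L, (e n : SL(2, ℝ)) • z ∈ L :=
      fun n => (e n).2
    choose hd z hz hw using hg
    obtain ⟨⟨a, b⟩, -, φ, hφ, hlim⟩ := (hL.prod hL).tendsto_subseq
      (x := fun n => (z n, (e n : SL(2, ℝ)) • z n)) (fun n => ⟨hz n, hw n⟩)
    have hla : Tendsto (fun n => z (φ n)) atTop (𝓝 a) :=
      (continuous_fst.tendsto (a, b)).comp hlim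
    have hlb : Tendsto (fun n => (e (φ n) : SL(2, ℝ)) • z (φ n)) atTop (𝓝 b) :=
      (continuous_snd.tendsto (a, b)).comp hlim
    have hu1 : Tendsto (fun n => u (z (φ n))) atTop (𝓝 (u a)) :=
      ((uni_cont hu).tendsto a).comp hla
    have hu2 : Tendsto (fun n => u (z (φ n))) atTop (𝓝 (u b)) := by
      have h := ((uni_cont hu).tendsto b).comp hlb
      refine h.congr (fun n => ?_)
      exact hd (φ n) (z (φ n))
    obtain ⟨h, h1, h2⟩ := hu.deck a b (tendsto_nhds_unique hu1 hu2)
    obtain ⟨U, hUo, hbU, hinj⟩ :=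
      (uni_isCov hu).isLocalHomeomorph.isLocallyInjective b
    have hlc : Tendsto (fun n => h • z (φ n)) atTop (𝓝 b) := by
      rw [← h1]
      exact ((continuous_const_smul h).tendsto a).comp hla
    have hev := (hlb.eventually (hUo.mem_nhds hbU)).and (hlc.eventually (hUo.mem_nhds hbU))
    obtain ⟨N, hN⟩ := eventually_atTop.1 hev
    have key : ∀ n, (e (φ (n + N)) : SL(2, ℝ)) ∈ ({h, -h} : Set SL(2, ℝ)) := by
      intro n
      obtain ⟨q1, q2⟩ := hN (n + N) (by omega)
      have q3 : (e (φ (n + N)) : SL(2, ℝ)) • z (φ (n + N)) = h • z (φ (n + N)) := by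
        apply hinj q1 q2
        apply Subtype.ext
        change u _ = u _
        rw [h2]
        exact hd _ _
      have q4 : mh (h⁻¹ * (e (φ (n + N)) : SL(2, ℝ))) = 1 := by
        apply uni_free hu _ _ (z (φ (n + N)))
        · rw [mul_smul, q3, inv_smul_smul]
        · intro v
          rw [mul_smul]
          have q5 := h2 (h⁻¹ • (e (φ (n + N)) : SL(2, ℝ)) • v)
          rw [smul_inv_smul] at q5
          rw [← q5]
          exact hd _ v
      rw [map_mul, map_inv, inv_mul_eq_one] at q4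
      rcases (mh_eq_iff _ _).1 q4.symm with q6 | q6
      · exact Or.inl q6
      · exact Or.inr q6
    have hfin : ({h, -h} : Set SL(2, ℝ)).Finite := Set.toFinite _
    refine (Set.infinite_of_injective_forall_mem (f := fun n => (e (φ (n + N)) : SL(2, ℝ)))
      ?_ key) hfin
    intro m n hmn
    have h3 : e (φ (m + N)) = e (φ (n + N)) := Subtype.ext hmn
    have h4 := hφ.injective (e.injective h3)
    omega

end Pool.Agent.Helper89.LN
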