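import Pool.Agent.Helper64.LN.GoalsA

set_option autoImplicit false

/-! Project LN (MP_2b9d24_gt), packet GE2: positions from coordinates. -/

namespace Pool.Agent.Helper89.LN

open Pool.Agent.Helper64.LN

section
variable {H : Type} [Group H] {D : Subgroup H} {Sp : H → H → H → Prop} {hy : H → Prop}
  {τ : H → H → ℝ} {κ : H → ℝ}

theorem nc_inv {a b : H} (h : Nc a b) : Nc a b⁻¹ := by
  intro h1
  apply h
  have h2 : Commute a b⁻¹ := h1
  exact (Commute.inv_right_iff.1 h2).eq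

/-- logarithms and differences have the same sign -/
theorem log_diff {k x y : ℝ} (hk : 1 < k) (hx : 0 < x) (hy : 0 < y) :
    ∃ c : ℝ, 0 < c ∧ Real.log x / Real.log k - Real.log y / Real.log k = c * (x - y) := by
  have hl : 0 < Real.log k := Real.log_pos hk
  rcases lt_trichotomy x y with h | h | h
  · refine ⟨(Real.log x / Real.log k - Real.log y / Real.log k) / (x - y), ?_, ?_⟩
    · apply div_pos_of_neg_of_neg
      · rw [← sub_div]
        exact div_neg_of_neg_of_pos (sub_neg.2 (Real.log_lt_log hx h)) hl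
      · linarith
    · rw [div_mul_cancel₀]
      exact (sub_neg.2 h).ne
  · refine ⟨1, one_pos, ?_⟩
    rw [h]
    ring
  · refine ⟨(Real.log x / Real.log k - Real.log y / Real.log k) / (x - y), ?_, ?_⟩
    · apply div_pos
      · rw [← sub_div]
        exact div_pos (sub_pos.2 (Real.log_lt_log hy h)) hl
      · linarith
    · rw [div_mul_cancel₀]
      exact (sub_pos.2 h).ne'

/-- the two ends of a line crossing `a` -/
theorem pq (hG : GF D Sp) (hC : Coord D Sp hy τ κ) {a b : H} (ha : a ∈ D) (hb : b ∈ D)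
    (h : Cr Sp a b) : ∃ p q : ℝ, 0 < p ∧ 0 < q ∧
      ((τ a b = -p ∧ τ a b⁻¹ = q) ∨ (τ a b = q ∧ τ a b⁻¹ = -p)) ∧
      lT τ κ a b = Real.log p / Real.log (κ a) ∧ rT τ κ a b = Real.log q / Real.log (κ a) := by
  have hn : Nc a b := hG.comm a ha b hb h
  have hs : τ a b * τ a b⁻¹ < 0 :=
    (hC.self a ha b hb b⁻¹ (D.inv_mem hb) (hC.crhy a ha b hb h).1 hn (nc_inv hn)).1 h
  unfold lT rT
  rcases mul_neg_iff.1 hs with ⟨h1, h2⟩ | ⟨h1, h2⟩
  · refine ⟨-τ a b⁻¹, τ a b, neg_pos.2 h2, h1, Or.inr ⟨rfl, (neg_neg _).symm⟩, ?_, ?_⟩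
    · rw [min_eq_right (h2.trans h1).le]
    · rw [max_eq_left (h2.trans h1).le]
  · refine ⟨-τ a b, τ a b⁻¹, neg_pos.2 h1, h2, Or.inl ⟨(neg_neg _).symm, rfl⟩, ?_, ?_⟩
    · rw [min_eq_left (h1.trans h2).le]
    · rw [max_eq_right (h1.trans h2).le]

theorem shift (hG : GF D Sp) (hC : Coord D Sp hy τ κ) {a b : H} (ha : a ∈ D) (hb : b ∈ D)
    (h : Cr Sp a b) : lT τ κ a (a * b * a⁻¹) = lT τ κ a b + 1 ∧
      rT τ κ a (a * b * a⁻¹) = rT τ κ a b + 1 := by
  have hn : Nc a b := hG.comm a ha b hb h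
  have hh := (hC.crhy a ha b hb h).1
  have hk := hC.kap a ha hh
  have hl : 0 < Real.log (κ a) := Real.log_pos hk
  have e1 : τ a (a * b * a⁻¹) = κ a * τ a b := hC.tr a ha b hb hh hn
  have e2 : τ a (a * b * a⁻¹)⁻¹ = κ a * τ a b⁻¹ := by
    rw [← hC.tr a ha b⁻¹ (D.inv_mem hb) hh (nc_inv hn)]
    congr 1
    group
  have hs : τ a b * τ a b⁻¹ < 0 :=
    (hC.self a ha b hb b⁻¹ (D.inv_mem hb) hh hn (nc_inv hn)).1 h
  unfold lT rT
  rw [e1, e2, ← mul_min_of_nonneg _ _ (by linarith : (0:ℝ) ≤ κ a),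
    ← mul_max_of_nonneg _ _ (by linarith : (0:ℝ) ≤ κ a)]
  have hm : min (τ a b) (τ a b⁻¹) < 0 := by
    rcases mul_neg_iff.1 hs with ⟨h1, h2⟩ | ⟨h1, h2⟩
    · exact min_lt_of_right_lt h2
    · exact min_lt_of_left_lt h1
  have hM : 0 < max (τ a b) (τ a b⁻¹) := by
    rcases mul_neg_iff.1 hs with ⟨h1, h2⟩ | ⟨h1, h2⟩
    · exact lt_max_of_lt_left h1
    · exact lt_max_of_lt_right h2
  constructor
  · rw [← mul_neg, Real.log_mul (by linarith) (by linarith), add_div, div_self hl.ne', add_comm]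
  · rw [Real.log_mul (by linarith) hM.ne', add_div, div_self hl.ne', add_comm]

theorem distc (hG : GF D Sp) (hC : Coord D Sp hy τ κ) {a b c : H} (ha : a ∈ D) (hb : b ∈ D)
    (hc : c ∈ D) (h1 : Cr Sp a b) (h2 : Cr Sp a c) (h : b * c = c * b) :
    lT τ κ a b = lT τ κ a c ∧ rT τ κ a b = rT τ κ a c := by
  rcases hC.com a ha b hb c hc (hC.crhy a ha b hb h1).1 (hG.comm a ha b hb h1)
    (hG.comm a ha c hc h2) h with ⟨e1, e2⟩ | ⟨e1, e2⟩
  · unfold lT rT
    rw [e1, e2]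
    exact ⟨rfl, rfl⟩
  · unfold lT rT
    rw [e1, e2, min_comm (τ a b⁻¹), max_comm (τ a b⁻¹)]
    exact ⟨rfl, rfl⟩

theorem dist (hG : GF D Sp) (hC : Coord D Sp hy τ κ) {a b c : H} (ha : a ∈ D) (hb : b ∈ D)
    (hc : c ∈ D) (h1 : Cr Sp a b) (h2 : Cr Sp a c)
    (h : lT τ κ a b = lT τ κ a c ∨ rT τ κ a b = rT τ κ a c) : b * c = c * b := by
  have hh := (hC.crhy a ha b hb h1).1
  have hk := hC.kap a ha hh
  have hl : 0 < Real.log (κ a) := Real.log_pos hk
  have nb := hG.comm a ha b hb h1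
  have nc := hG.comm a ha c hc h2
  have nb' := nc_inv nb
  have nc' := nc_inv nc
  have hb' := D.inv_mem hb
  have hc' := D.inv_mem hc
  obtain ⟨p, q, hp, hq, hpq, e1, e2⟩ := pq hG hC ha hb h1
  obtain ⟨s, t, hs, ht, hst, e3, e4⟩ := pq hG hC ha hc h2
  have E := hC.eq a ha
  have key : ∀ x y : H, x * y = y * x → x⁻¹ * y = y * x⁻¹ := fun x y hxy =>
    (Commute.inv_left (show Commute x y from hxy)).eq
  have key' : ∀ x y : H, x * y = y * x → x * y⁻¹ = y⁻¹ * x := fun x y hxy =>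
    (Commute.inv_right (show Commute x y from hxy)).eq
  rcases h with h | h
  · rw [e1, e3, div_left_inj' hl.ne'] at h
    have hps : p = s := Real.log_injOn_pos hp hs h
    subst hps
    rcases hpq with ⟨u1, u2⟩ | ⟨u1, u2⟩ <;> rcases hst with ⟨v1, v2⟩ | ⟨v1, v2⟩
    · exact E b hb c hc hh nb nc (u1.trans v1.symm)
    · have := E b hb _ hc' hh nb nc' (u1.trans v2.symm)
      simpa using key' _ _ this
    · have := E _ hb' c hc hh nb' nc (u2.trans v1.symm)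
      simpa using key _ _ this
    · have := E _ hb' _ hc' hh nb' nc' (u2.trans v2.symm)
      have h3 := key _ _ this
      rw [inv_inv] at h3
      simpa using key' _ _ h3
  · rw [e2, e4, div_left_inj' hl.ne'] at h
    have hqt : q = t := Real.log_injOn_pos hq ht h
    subst hqt
    rcases hpq with ⟨u1, u2⟩ | ⟨u1, u2⟩ <;> rcases hst with ⟨v1, v2⟩ | ⟨v1, v2⟩
    · have := E _ hb' _ hc' hh nb' nc' (u2.trans v2.symm)
      have h3 := key _ _ this
      rw [inv_inv] at h3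
      simpa using key' _ _ h3
    · have := E _ hb' c hc hh nb' nc (u2.trans v1.symm)
      simpa using key _ _ this
    · have := E b hb _ hc' hh nb nc' (u1.trans v2.symm)
      simpa using key' _ _ this
    · exact E b hb c hc hh nb nc (u1.trans v1.symm)

theorem pos_mul_neg_iff {c x : ℝ} (hc : 0 < c) : c * x < 0 ↔ x < 0 := by
  rw [mul_neg_iff]
  constructor
  · rintro (⟨-, h⟩ | ⟨h, -⟩)
    · exact h
    · exact absurd h (not_lt.2 hc.le)
  · intro h
    exact Or.inl ⟨hc, h⟩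

theorem cross (hG : GF D Sp) (hC : Coord D Sp hy τ κ) {a b c : H} (ha : a ∈ D) (hb : b ∈ D)
    (hc : c ∈ D) (h1 : Cr Sp a b) (h2 : Cr Sp a c) :
    Cr Sp b c ↔ (lT τ κ a b - lT τ κ a c) * (rT τ κ a b - rT τ κ a c) < 0 := by
  by_cases hbc : b * c = c * b
  · obtain ⟨e1, e2⟩ := distc hG hC ha hb hc h1 h2 hbc
    rw [e1, e2]
    constructor
    · intro h
      exact absurd hbc (hG.comm b hb c hc h)
    · intro h
      simp at h
  · have hn : Nc b c := hbc
    obtain ⟨hh, hhb⟩ := hC.crhy a ha b hb h1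
    have hk := hC.kap a ha hh
    have nb := hG.comm a ha b hb h1
    have nc := hG.comm a ha c hc h2
    obtain ⟨p, q, hp, hq, hpq, e1, e2⟩ := pq hG hC ha hb h1
    obtain ⟨s, t, hs, ht, hst, e3, e4⟩ := pq hG hC ha hc h2
    obtain ⟨c1, hc1, d1⟩ := log_diff hk hp hs
    obtain ⟨c2, hc2, d2⟩ := log_diff hk hq ht
    have hsep := hC.sep a ha b hb c hc c⁻¹ (D.inv_mem hc) hh hhb nb nc (nc_inv nc) hn (nc_inv hn)
    unfold Cr
    rw [hsep, e1, e3, d1, e2, e4, d2]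
    have hpos : 0 < (s + q) * (t + p) := by positivity
    have E1 : (τ a c - τ a b) * (τ a c - τ a b⁻¹) * ((τ a c⁻¹ - τ a b) * (τ a c⁻¹ - τ a b⁻¹)) =
        ((s + q) * (t + p)) * ((p - s) * (q - t)) := by
      rcases hpq with ⟨u1, u2⟩ | ⟨u1, u2⟩ <;> rcases hst with ⟨v1, v2⟩ | ⟨v1, v2⟩ <;>
        rw [u1, u2, v1, v2] <;> ring
    rw [E1, show c1 * (p - s) * (c2 * (q - t)) = (c1 * c2) * ((p - s) * (q - t)) by ring,
      pos_mul_neg_iff hpos, pos_mul_neg_iff (mul_pos hc1 hc2)]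

/-- the position of the end of `b` relative to the line `e` -/
theorem half (hG : GF D Sp) (hC : Coord D Sp hy τ κ) {a b e : H} (ha : a ∈ D) (hb : b ∈ D)
    (he : e ∈ D) (h1 : Cr Sp a b) (h2 : Cr Sp a e) (h3 : ¬ Cr Sp e b) (h4 : Nc e b) :
    ∃ k : ℝ, 0 < k ∧ (τ a b - τ a e) * (τ a b - τ a e⁻¹) = k * (lT τ κ a b - lT τ κ a e) := by
  obtain ⟨hh, hhb⟩ := hC.crhy a ha b hb h1
  have hk := hC.kap a ha hh
  have hne1 : lT τ κ a b ≠ lT τ κ a e := fun h =>
    h4 (dist hG hC ha hb he h1 h2 (Or.inl h)).symm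
  have hne2 : rT τ κ a b ≠ rT τ κ a e := fun h =>
    h4 (dist hG hC ha hb he h1 h2 (Or.inr h)).symm
  have hcr : 0 < (lT τ κ a b - lT τ κ a e) * (rT τ κ a b - rT τ κ a e) := by
    have h5 : ¬ (lT τ κ a e - lT τ κ a b) * (rT τ κ a e - rT τ κ a b) < 0 := fun h =>
      h3 ((cross hG hC ha he hb h2 h1).2 h)
    have h6 : (lT τ κ a b - lT τ κ a e) * (rT τ κ a b - rT τ κ a e) ≠ 0 :=
      mul_ne_zero (sub_ne_zero.2 hne1) (sub_ne_zero.2 hne2)
    have h7 : (lT τ κ a e - lT τ κ a b) * (rT τ κ a e - rT τ κ a b) =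
        (lT τ κ a b - lT τ κ a e) * (rT τ κ a b - rT τ κ a e) := by ring
    rw [h7] at h5
    exact lt_of_le_of_ne (not_lt.1 h5) h6.symm
  obtain ⟨s, t, hs, ht, hst, e1, e2⟩ := pq hG hC ha hb h1
  obtain ⟨p, q, hp, hq, hpq, e3, e4⟩ := pq hG hC ha he h2
  obtain ⟨c1, hc1, d1⟩ := log_diff hk hs hp
  obtain ⟨c2, hc2, d2⟩ := log_diff hk ht hq
  rw [← e1, ← e3] at d1
  rw [← e2, ← e4] at d2
  have hE : (τ a b - τ a e) * (τ a b - τ a e⁻¹) = (τ a b + p) * (τ a b - q) := by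
    rcases hpq with ⟨u1, u2⟩ | ⟨u1, u2⟩ <;> rw [u1, u2] <;> ring
  rw [hE]
  rcases hst with ⟨v1, v2⟩ | ⟨v1, v2⟩
  · refine ⟨(s + q) / c1, by positivity, ?_⟩
    rw [v1, d1]
    field_simp
    ring
  · -- `t - q` has the sign of `r a b - r a e`, hence of `l a b - l a e`
    refine ⟨(t + p) * (t - q) / (lT τ κ a b - lT τ κ a e), ?_, ?_⟩
    · have h8 : 0 < (t - q) * (lT τ κ a b - lT τ κ a e) := by
        rw [d2] at hcr
        have : 0 < c2 * ((t - q) * (lT τ κ a b - lT τ κ a e)) := by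
          have h9 : (lT τ κ a b - lT τ κ a e) * (c2 * (t - q)) =
            c2 * ((t - q) * (lT τ κ a b - lT τ κ a e)) := by ring
          rwa [h9] at hcr
        exact (mul_pos_iff_of_pos_left hc2).1 this
      rw [mul_div_assoc]
      apply mul_pos (by positivity)
      rcases mul_pos_iff.1 h8 with ⟨x1, x2⟩ | ⟨x1, x2⟩
      · exact div_pos x1 x2
      · exact div_pos_of_neg_of_neg x1 x2
    · rw [v1, div_mul_cancel₀ _ (sub_ne_zero.2 hne1)]

end

/-- **Packet GE2.** -/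
theorem goalGE2 : GoalGE2 := by
  intro H _ D Sp hy τ κ hG hC
  refine ⟨?_, ?_, ?_, ?_, ?_⟩
  · intro a ha b hb h
    exact shift hG hC ha hb h
  · intro a ha b hb c hc h1 h2
    exact cross hG hC ha hb hc h1 h2
  · intro a ha b hb c hc h1 h2 h
    exact dist hG hC ha hb hc h1 h2 h
  · intro a ha b hb c hc h1 h2 h
    exact distc hG hC ha hb hc h1 h2 h
  · intro a ha b hb c hc e he h1 h2 h3 h4 h5 h6 h7
    obtain ⟨k1, hk1, d1⟩ := half hG hC ha hb he h1 h3 h4 h6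
    obtain ⟨k2, hk2, d2⟩ := half hG hC ha hc he h2 h3 h5 h7
    have hsep := hC.sep a ha e he b hb c hc (hC.crhy a ha e he h3).1 (hC.crhy a ha e he h3).2
      (hG.comm a ha e he h3) (hG.comm a ha b hb h1) (hG.comm a ha c hc h2) h6 h7
    rw [hsep, d1, d2, show k1 * (lT τ κ a b - lT τ κ a e) * (k2 * (lT τ κ a c - lT τ κ a e)) =
      (k1 * k2) * ((lT τ κ a b - lT τ κ a e) * (lT τ κ a c - lT τ κ a e)) by ring,
      pos_mul_neg_iff (mul_pos hk1 hk2)]

end Pool.Agent.Helper89.LN
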