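import Pool.Agent.Helper85.LN.Goals

/-! Packet ENC0 of project LN: the functions on codes compute the right things. -/

namespace Pool.Agent.Helper89.LN

open Pool.Agent.Helper85.LN

theorem getD_ofFn {α : Type} {n : ℕ} (f : Fin n → α) (i : Fin n) (a : α) :
    (List.ofFn f).getD i a = f i := by
  rw [List.getD_eq_getElem _ _ (by simp)]
  simp

theorem idxOf_ofFn {n : ℕ} (f : Fin n → ℕ) (hf : Function.Injective f) (i : Fin n) :
    (List.ofFn f).idxOf (f i) = i := by
  have hn : (List.ofFn f).Nodup := List.nodup_ofFn.2 hf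
  have h : (List.ofFn f)[(i : ℕ)]'(by simp) = f i := by simp
  have h2 := hn.idxOf_getElem (i : ℕ) (by simp)
  rw [h] at h2
  exact h2

theorem codeW_append {m : ℕ} (u v : List (S (Fin m))) : codeW (u ++ v) = codeW u ++ codeW v := by
  simp [codeW]

theorem codeW_iw {m : ℕ} (w : List (S (Fin m))) : codeW (iw w) = iwC (codeW w) := by
  simp [codeW, iw, iwC, List.map_reverse, Function.comp_def]

theorem enc_two (m k : ℕ) (T : Tab) (W : WA (Fin m) (Fin k)) (h : Reps T W) (s : S (Fin m))
    (z : Fin k) : ltC T ((s.1 : ℕ), s.2) z = (W.lt s z : ℕ) ∧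
      scC T ((s.1 : ℕ), s.2) z = codeW (W.sc s z) := by
  obtain ⟨q, b⟩ := s
  obtain ⟨h1, h2⟩ := h
  cases b
  · have h3 : (T.1.getD q []).idxOf (z : ℕ) = ((W.out q).symm z : ℕ) := by
      rw [h1]
      have h4 := idxOf_ofFn (fun z => ((W.out q z : Fin k) : ℕ))
        (fun x y hxy => (W.out q).injective (Fin.ext hxy)) ((W.out q).symm z)
      simpa using h4
    refine ⟨h3, ?_⟩
    change iwC ((T.2.getD q []).getD ((T.1.getD q []).idxOf (z : ℕ)) []) = _
    rw [h3, h2, ← codeW_iw]
    rfl
  · refine ⟨?_, h2 q z⟩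
    change (T.1.getD q []).getD z 0 = _
    rw [h1, getD_ofFn]
    rfl

theorem enc_one (m k : ℕ) (T : Tab) (W : WA (Fin m) (Fin k)) (h : Reps T W)
    (w : List (S (Fin m))) (z : Fin k) :
    runC T (codeW w) z = ((W.ltw w z : ℕ), codeW (W.scw w z)) := by
  induction w with
  | nil => rfl
  | cons s w ih =>
    have h1 : runC T (codeW (s :: w)) z = (ltC T ((s.1 : ℕ), s.2) (runC T (codeW w) z).1,
        scC T ((s.1 : ℕ), s.2) (runC T (codeW w) z).1 ++ (runC T (codeW w) z).2) := rfl
    obtain ⟨h2, h3⟩ := enc_two m k T W h s (W.ltw w z)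
    rw [h1, ih]
    simp only
    rw [h2, h3, ← codeW_append]
    rfl

theorem enc_three (m d : ℕ) (A : Auto (Fin m) (Fin d)) : Reps (tabA (enc A)) A.toWA := by
  constructor
  · intro q
    change (List.ofFn fun q => List.ofFn fun a => (A.out q a : ℕ)).getD q [] = _
    rw [getD_ofFn]
    rfl
  · intro q z
    change (((List.ofFn fun q => List.ofFn fun a => (A.tr q a : ℕ)).map
      fun row => row.map fun s => [(s, true)]).getD q []).getD z [] = _
    rw [List.map_ofFn, getD_ofFn]
    simp only [Function.comp_apply]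
    rw [List.map_ofFn, getD_ofFn]
    rfl

theorem lift_list {d : ℕ} (u : List (Fin d)) :
    (u.map fun a => (a : ℕ)) = u.map Fin.val := by
  induction u with
  | nil => rfl
  | cons a u ih =>
    simp only [List.map_id_fun', id_eq, List.pure_def, List.bind_eq_flatMap] at ih ⊢
    simp [ih]

theorem enc_four' (m d : ℕ) (A : Auto (Fin m) (Fin d)) (u : List (Fin d)) :
    ∀ (l : List ℕ) (w : List (S (Fin m))),
      (u.map Fin.val).foldl (fun p a => (p.1 ++ [(runC (tabA (enc A)) p.2 a).1],
        (runC (tabA (enc A)) p.2 a).2)) (l, codeW w) =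
      (l ++ (A.val w u).map Fin.val, codeW (secw A w u)) := by
  induction u with
  | nil =>
    intro l w
    rw [A.val_apply_nil]
    simp [secw]
  | cons a u ih =>
    intro l w
    rw [List.map_cons, List.foldl_cons]
    simp only
    rw [enc_one m d _ _ (enc_three m d A) w a]
    simp only
    rw [ih, A.val_apply_cons]
    simp [secw]

theorem enc_four (m d : ℕ) (A : Auto (Fin m) (Fin d)) (w : List (S (Fin m)))
    (u : List (Fin d)) : actC (tabA (enc A)) (codeW w) (u.map fun a => (a : ℕ)) =
      ((A.val w u).map fun a => (a : ℕ), codeW (secw A w u)) := by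
  rw [lift_list, lift_list]
  have h := enc_four' m d A u [] w
  rw [List.nil_append] at h
  exact h

theorem enc0 : S_ENC0 := ⟨enc_one, enc_two, enc_three, enc_four⟩

end Pool.Agent.Helper89.LN
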